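import Pool.Agent.H37.CV.Targets

/-!
# (WV) Bounds for the weights
-/

set_option autoImplicit false

open Complex Filter Topology MeasureTheory

namespace Pool.Agent.H1.CV

open Pool.Agent.H37.CV Pool.Agent.H28.RC Pool.Agent.H25.HK

/-- the integral over the line `re = c` -/
noncomputable def JJ (H : ℂ → ℂ) (x c : ℝ) : ℂ :=
  ∫ t : ℝ, H (c + t * I) * (cexp ((c + t * I) ^ 2) / (c + t * I)) * (x : ℂ) ^ (-(c + t * I))

/-- the constant in the bound -/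
noncomputable def MM (H : ℂ → ℂ) (c : ℝ) : ℝ :=
  ∫ t : ℝ, ‖H (c + t * I) * (cexp ((c + t * I) ^ 2) / (c + t * I))‖

theorem MM_nonneg (H : ℂ → ℂ) (c : ℝ) : 0 ≤ MM H c := integral_nonneg fun _ => norm_nonneg _

theorem re_add (c t : ℝ) : ((c : ℂ) + t * I).re = c := by simp

theorem JJ_le (H : ℂ → ℂ) {x : ℝ} (hx : 0 < x) (c : ℝ) : ‖JJ H x c‖ ≤ MM H c * x ^ (-c) := by
  unfold JJ MM
  rw [← integral_mul_const]
  refine (norm_integral_le_integral_norm _).trans (le_of_eq ?_)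
  refine integral_congr_ae (Filter.Eventually.of_forall fun t => ?_)
  show ‖H (c + t * I) * (cexp ((c + t * I) ^ 2) / (c + t * I)) * (x : ℂ) ^ (-(c + t * I))‖ = _
  rw [norm_mul, Complex.norm_cpow_eq_rpow_re_of_pos hx, Complex.neg_re, re_add]

theorem rpow_bd {x a b σ : ℝ} (hx : 0 < x) (h1 : a ≤ σ) (h2 : σ ≤ b) :
    x ^ (-σ) ≤ x ^ (-a) + x ^ (-b) := by
  have ha : 0 ≤ x ^ (-a) := Real.rpow_nonneg hx.le _
  have hb : 0 ≤ x ^ (-b) := Real.rpow_nonneg hx.le _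
  rcases le_total 1 x with h | h
  · have := Real.rpow_le_rpow_of_exponent_le h (show -σ ≤ -a by linarith)
    linarith
  · have := Real.rpow_le_rpow_of_exponent_ge hx h (show -b ≤ -σ by linarith)
    linarith

theorem diff_pow {x : ℝ} (hx : 0 < x) (s : ℂ) :
    DifferentiableAt ℂ (fun s : ℂ => (x : ℂ) ^ (-s)) s :=
  (differentiableAt_id.neg).const_cpow (Or.inl (by exact_mod_cast hx.ne'))

theorem shift_pos (hSH : T_SH) (H : ℂ → ℂ) {x a b : ℝ} (hx : 0 < x) (ha : 0 < a) (hab : a ≤ b)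
    (hd : ∀ s : ℂ, a ≤ s.re → s.re ≤ b → DifferentiableAt ℂ H s)
    (hb : ∃ C A : ℝ, ∀ s : ℂ, a ≤ s.re → s.re ≤ b → ‖H s‖ ≤ C * (1 + |s.im|) ^ A) :
    JJ H x b = JJ H x a := by
  obtain ⟨C, A, hC⟩ := hb
  obtain ⟨⟨-, -, h1⟩, -⟩ := hSH (fun s => H s * (x : ℂ) ^ (-s) / s) a b hab
    (fun s h1 h2 => ((hd s h1 h2).mul (diff_pow hx s)).div differentiableAt_id (by
      rintro rfl
      simp at h1
      linarith))
    ⟨C * (x ^ (-a) + x ^ (-b)) * a⁻¹, A, fun s h1 h2 => by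
      have hs : 0 < s.re := by linarith
      have e1 : a ≤ ‖s‖ := h1.trans (Complex.re_le_norm s)
      have e2 := hC s h1 h2
      have e3 := rpow_bd hx h1 h2
      rw [norm_div, norm_mul, Complex.norm_cpow_eq_rpow_re_of_pos hx, Complex.neg_re,
        div_eq_mul_inv]
      have e4 : ‖s‖⁻¹ ≤ a⁻¹ := inv_anti₀ ha e1
      have e5 : 0 ≤ x ^ (-s.re) := Real.rpow_nonneg hx.le _
      calc ‖H s‖ * x ^ (-s.re) * ‖s‖⁻¹
          ≤ (C * (1 + |s.im|) ^ A) * (x ^ (-a) + x ^ (-b)) * a⁻¹ := by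
            refine mul_le_mul (mul_le_mul e2 e3 e5 (le_trans (norm_nonneg _) e2)) e4
              (by positivity) ?_
            exact mul_nonneg (le_trans (norm_nonneg _) e2) (e5.trans e3)
        _ = C * (x ^ (-a) + x ^ (-b)) * a⁻¹ * (1 + |s.im|) ^ A := by ring⟩
  unfold JJ
  have e : ∀ c : ℝ, (∫ t : ℝ, H (c + t * I) * (cexp ((c + t * I) ^ 2) / (c + t * I)) *
      (x : ℂ) ^ (-(c + t * I))) = ∫ t : ℝ, H (c + t * I) * (x : ℂ) ^ (-(c + t * I)) /
        (c + t * I) * cexp ((c + t * I) ^ 2) := by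
    intro c
    refine integral_congr_ae (Filter.Eventually.of_forall fun t => ?_)
    show H (c + t * I) * (cexp ((c + t * I) ^ 2) / (c + t * I)) *
      (x : ℂ) ^ (-(c + t * I)) = H (c + t * I) * (x : ℂ) ^ (-(c + t * I)) /
        (c + t * I) * cexp ((c + t * I) ^ 2)
    ring
  rw [e, e]
  exact h1

theorem shift_zero (hSH : T_SH) (H : ℂ → ℂ) {x a b : ℝ} (hx : 0 < x) (ha : a < 0) (hb0 : 0 < b)
    (hd : ∀ s : ℂ, a ≤ s.re → s.re ≤ b → DifferentiableAt ℂ H s)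
    (hb : ∃ C A : ℝ, ∀ s : ℂ, a ≤ s.re → s.re ≤ b → ‖H s‖ ≤ C * (1 + |s.im|) ^ A) :
    JJ H x b - JJ H x a = 2 * Real.pi * H 0 := by
  obtain ⟨C, A, hC⟩ := hb
  obtain ⟨-, h1, -⟩ := hSH (fun s => H s * (x : ℂ) ^ (-s)) a b (by linarith)
    (fun s h1 h2 => (hd s h1 h2).mul (diff_pow hx s))
    ⟨C * (x ^ (-a) + x ^ (-b)), A, fun s h1 h2 => by
      have e2 := hC s h1 h2
      have e3 := rpow_bd hx h1 h2
      rw [norm_mul, Complex.norm_cpow_eq_rpow_re_of_pos hx, Complex.neg_re]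
      have e5 : 0 ≤ x ^ (-s.re) := Real.rpow_nonneg hx.le _
      calc ‖H s‖ * x ^ (-s.re)
          ≤ (C * (1 + |s.im|) ^ A) * (x ^ (-a) + x ^ (-b)) :=
            mul_le_mul e2 e3 e5 (le_trans (norm_nonneg _) e2)
        _ = C * (x ^ (-a) + x ^ (-b)) * (1 + |s.im|) ^ A := by ring⟩
  obtain ⟨-, -, h2⟩ := h1 ha hb0
  unfold JJ
  have e : ∀ c : ℝ, (∫ t : ℝ, H (c + t * I) * (cexp ((c + t * I) ^ 2) / (c + t * I)) *
      (x : ℂ) ^ (-(c + t * I))) = ∫ t : ℝ, H (c + t * I) * (x : ℂ) ^ (-(c + t * I)) *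
        (cexp ((c + t * I) ^ 2) / (c + t * I)) := by
    intro c
    refine integral_congr_ae (Filter.Eventually.of_forall fun t => ?_)
    show H (c + t * I) * (cexp ((c + t * I) ^ 2) / (c + t * I)) *
      (x : ℂ) ^ (-(c + t * I)) = H (c + t * I) * (x : ℂ) ^ (-(c + t * I)) *
        (cexp ((c + t * I) ^ 2) / (c + t * I))
    ring
  rw [e, e]
  have h3 : (x : ℂ) ^ (-(0 : ℂ)) = 1 := by simp
  rw [h3, mul_one] at h2
  exact h2

/-- the bounds for a general weight -/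
theorem gen (hSH : T_SH) (H : ℂ → ℂ) (ε : ℝ) (hε : 0 < ε) (h0 : H 0 = 1)
    (hH : ∀ b : ℝ, ∃ C A : ℝ, ∀ s : ℂ, -ε ≤ s.re → s.re ≤ b →
      DifferentiableAt ℂ H s ∧ ‖H s‖ ≤ C * (1 + |s.im|) ^ A) (A : ℕ) :
    ∃ C : ℝ, 0 ≤ C ∧ ∀ x : ℝ, 0 < x → ‖((1 / (2 * Real.pi) : ℝ) : ℂ) * JJ H x 2‖ * x ^ A ≤ C := by
  have hπ : (0 : ℝ) < 1 / (2 * Real.pi) := by positivity
  have hn : ‖((1 / (2 * Real.pi) : ℝ) : ℂ)‖ = 1 / (2 * Real.pi) := by
    rw [Complex.norm_real, Real.norm_eq_abs, abs_of_pos hπ]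
  rcases Nat.eq_zero_or_pos A with hA | hA
  · subst hA
    refine ⟨max (1 / (2 * Real.pi) * MM H 2) (1 + 1 / (2 * Real.pi) * MM H (-ε)), ?_, ?_⟩
    · exact le_max_of_le_left (mul_nonneg hπ.le (MM_nonneg _ _))
    intro x hx
    rw [pow_zero, mul_one]
    rcases le_total 1 x with h | h
    · refine le_max_of_le_left ?_
      rw [norm_mul, hn]
      refine mul_le_mul_of_nonneg_left ((JJ_le H hx 2).trans ?_) hπ.le
      have h2 : x ^ (-(2 : ℝ)) ≤ 1 := Real.rpow_le_one_of_one_le_of_nonpos h (by norm_num)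
      have := MM_nonneg H 2
      nlinarith
    · refine le_max_of_le_right ?_
      obtain ⟨C, B, hC⟩ := hH 2
      have h1 := shift_zero hSH H hx (show -ε < 0 by linarith) (show (0 : ℝ) < 2 by norm_num)
        (fun s h1 h2 => (hC s h1 h2).1) ⟨C, B, fun s h1 h2 => (hC s h1 h2).2⟩
      rw [h0, mul_one] at h1
      have h2 : JJ H x 2 = 2 * Real.pi + JJ H x (-ε) := by
        rw [← h1]
        push_cast
        ring
      have h3 : ((1 / (2 * Real.pi) : ℝ) : ℂ) * JJ H x 2 =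
          1 + ((1 / (2 * Real.pi) : ℝ) : ℂ) * JJ H x (-ε) := by
        rw [h2, mul_add]
        congr 1
        have : (Real.pi : ℂ) ≠ 0 := by exact_mod_cast Real.pi_ne_zero
        push_cast
        field_simp
      rw [h3]
      refine (norm_add_le _ _).trans ?_
      rw [norm_one, norm_mul, hn]
      have h4 := JJ_le H hx (-ε)
      have h5 : x ^ (-(-ε)) ≤ 1 := Real.rpow_le_one hx.le h (by linarith)
      have h6 := MM_nonneg H (-ε)
      have h7 : ‖JJ H x (-ε)‖ ≤ MM H (-ε) := by nlinarith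
      have := mul_le_mul_of_nonneg_left h7 hπ.le
      linarith
  · refine ⟨1 / (2 * Real.pi) * MM H A, mul_nonneg hπ.le (MM_nonneg _ _), ?_⟩
    intro x hx
    have hA1 : (1 : ℝ) ≤ A := by exact_mod_cast hA
    have h1 : JJ H x 2 = JJ H x A := by
      rcases le_total (2 : ℝ) A with h | h
      · obtain ⟨C, B, hC⟩ := hH A
        exact (shift_pos hSH H hx (by norm_num) h
          (fun s h1 h2 => (hC s (by linarith) h2).1)
          ⟨C, B, fun s h1 h2 => (hC s (by linarith) h2).2⟩).symm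
      · obtain ⟨C, B, hC⟩ := hH 2
        exact shift_pos hSH H hx (by linarith) h
          (fun s h1 h2 => (hC s (by linarith) h2).1)
          ⟨C, B, fun s h1 h2 => (hC s (by linarith) h2).2⟩
    rw [h1, norm_mul, hn]
    have h2 := JJ_le H hx (A : ℝ)
    have h3 : x ^ (-(A : ℝ)) * x ^ A = 1 := by
      rw [Real.rpow_neg hx.le, Real.rpow_natCast]
      exact inv_mul_cancel₀ (pow_pos hx _).ne'
    calc 1 / (2 * Real.pi) * ‖JJ H x A‖ * x ^ A
        ≤ 1 / (2 * Real.pi) * (MM H A * x ^ (-(A : ℝ))) * x ^ A :=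
          mul_le_mul_of_nonneg_right (mul_le_mul_of_nonneg_left h2 hπ.le) (pow_nonneg hx.le _)
      _ = 1 / (2 * Real.pi) * MM H A * (x ^ (-(A : ℝ)) * x ^ A) := by ring
      _ = 1 / (2 * Real.pi) * MM H A := by rw [h3, mul_one]

theorem wf_eq (x : ℝ) : wf x = ((1 / (2 * Real.pi) : ℝ) : ℂ) * JJ (fun _ => 1) x 2 := by
  unfold wf JJ
  simp only [one_mul, Complex.ofReal_ofNat]

theorem Vf_eq (r : ℕ) (x : ℝ) : Vf r x = ((1 / (2 * Real.pi) : ℝ) : ℂ) * JJ (gq r) x 2 := by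
  unfold Vf JJ
  simp only [Complex.ofReal_ofNat]

theorem one_bd (ε b : ℝ) : ∃ C A : ℝ, ∀ s : ℂ, -ε ≤ s.re → s.re ≤ b →
    DifferentiableAt ℂ (fun _ : ℂ => (1 : ℂ)) s ∧
      ‖(fun _ : ℂ => (1 : ℂ)) s‖ ≤ C * (1 + |s.im|) ^ A :=
  ⟨1, 0, fun s _ _ => ⟨differentiableAt_const _, by simp⟩⟩

theorem pf_WV (hSH : T_SH) (hGB : T_GB) : T_WV := by
  have hπ : (0 : ℝ) < 1 / (2 * Real.pi) := by positivity
  have hn : ‖((1 / (2 * Real.pi) : ℝ) : ℂ)‖ = 1 / (2 * Real.pi) := by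
    rw [Complex.norm_real, Real.norm_eq_abs, abs_of_pos hπ]
  constructor
  · intro A
    have key : ∀ A : ℕ, 1 ≤ A → ∀ x : ℝ, 0 < x →
        ‖wf x - 1‖ ≤ 1 / (2 * Real.pi) * MM (fun _ => 1) (-(A : ℝ)) * x ^ A := by
      intro A hA x hx
      have hA1 : (1 : ℝ) ≤ A := by exact_mod_cast hA
      obtain ⟨C, B, hC⟩ := one_bd (A : ℝ) 2
      have h1 := shift_zero hSH (fun _ => 1) hx (show -(A : ℝ) < 0 by linarith)
        (show (0 : ℝ) < 2 by norm_num)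
        (fun s h1 h2 => (hC s h1 h2).1) ⟨C, B, fun s h1 h2 => (hC s h1 h2).2⟩
      simp only [mul_one] at h1
      have h3 : wf x - 1 = ((1 / (2 * Real.pi) : ℝ) : ℂ) * JJ (fun _ => 1) x (-(A : ℝ)) := by
        have h2 : JJ (fun _ => 1) x 2 = 2 * Real.pi + JJ (fun _ => 1) x (-(A : ℝ)) := by
          rw [← h1]
          push_cast
          ring
        have : (Real.pi : ℂ) ≠ 0 := by exact_mod_cast Real.pi_ne_zero
        rw [wf_eq, h2, mul_add]
        push_cast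
        field_simp
        ring
      rw [h3, norm_mul, hn, mul_assoc]
      refine mul_le_mul_of_nonneg_left ((JJ_le _ hx _).trans (le_of_eq ?_)) hπ.le
      rw [neg_neg, Real.rpow_natCast]
    obtain ⟨C1, hC1, h1⟩ := gen hSH (fun _ => 1) 1 one_pos rfl (one_bd 1) A
    obtain ⟨C2, hC2, h2⟩ := gen hSH (fun _ => 1) 1 one_pos rfl (one_bd 1) 0
    obtain ⟨M, hM⟩ : ∃ M, M = 1 / (2 * Real.pi) * MM (fun _ => 1) (-(A : ℝ)) := ⟨_, rfl⟩
    have hM0 : 0 ≤ M := by rw [hM]; exact mul_nonneg hπ.le (MM_nonneg _ _)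
    refine ⟨C1 + (C2 + 1) + M, fun x hx => ⟨?_, ?_⟩⟩
    · rw [wf_eq]
      have := h1 x hx
      linarith
    · rcases Nat.eq_zero_or_pos A with hA | hA
      · subst hA
        have h3 := h2 x hx
        rw [pow_zero, mul_one] at h3 ⊢
        have h4 : ‖wf x - 1‖ ≤ ‖wf x‖ + 1 := by
          have := norm_sub_le (wf x) 1
          rwa [norm_one] at this
        rw [← wf_eq] at h3
        linarith
      · have h3 := key A hA x hx
        rw [← hM] at h3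
        have h4 : 0 ≤ x ^ A := pow_nonneg hx.le _
        nlinarith
  · intro r A
    have hH : ∀ b : ℝ, ∃ C A : ℝ, ∀ s : ℂ, -(1 / 4) ≤ s.re → s.re ≤ b →
      DifferentiableAt ℂ (gq r) s ∧ ‖gq r s‖ ≤ C * (1 + |s.im|) ^ A := fun b => (hGB.1 r b).2
    obtain ⟨C, -, h⟩ := gen hSH (gq r) (1 / 4) (by norm_num) (hGB.1 r 0).1 hH A
    exact ⟨C, fun x hx => by rw [Vf_eq]; exact h x hx⟩

end Pool.Agent.H1.CV
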